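import Mathlib
import Pool.Agent.Q28.Fiber

/-!
Every finitely generated fiber product of two free semigroups is finitely presented.
-/

namespace Pool.Agent.Results.MP_c47b4a_al.FinitelyPresentedFiber

universe u

/-- The fiber product `{(u, v) : f u = g v}` of two free semigroups. -/
def fiberProduct {A B : Type} {Q : Type u} [Semigroup Q] (f : FreeSemigroup A →ₙ* Q)
    (g : FreeSemigroup B →ₙ* Q) : Subsemigroup (FreeSemigroup A × FreeSemigroup B) where
  carrier := {p | f p.1 = g p.2}
  mul_mem' := by
    intro p q hp hq
    show f (p.1 * q.1) = g (p.2 * q.2)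
    rw [map_mul, map_mul, show f p.1 = g p.2 from hp, show f q.1 = g q.2 from hq]

/-- A semigroup is finitely generated if it is generated by a finite subset. -/
def FinitelyGenerated (S : Type) [Semigroup S] : Prop :=
  ∃ T : Set S, T.Finite ∧ Subsemigroup.closure T = ⊤

/-- A semigroup is finitely presented if it is isomorphic to the quotient of a free semigroup on
finitely many generators by the congruence generated by finitely many pairs of words. -/
def FinitelyPresented (S : Type) [Semigroup S] : Prop :=
  ∃ (k : ℕ) (R : Finset (FreeSemigroup (Fin k) × FreeSemigroup (Fin k))),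
    Nonempty (S ≃* (conGen (fun u v => (u, v) ∈ R)).Quotient)

/-! ### Words as lists -/

/-- the list of letters -/
def toL {α : Type*} (w : FreeSemigroup α) : List α := w.head :: w.tail

theorem toL_mul {α : Type*} (u v : FreeSemigroup α) : toL (u * v) = toL u ++ toL v := rfl

theorem toL_ne {α : Type*} (w : FreeSemigroup α) : toL w ≠ [] := by simp [toL]

theorem toL_injective {α : Type*} : Function.Injective (toL (α := α)) := by
  intro u v h
  simp only [toL, List.cons.injEq] at h
  exact FreeSemigroup.ext h.1 h.2

theorem exists_toL {α : Type*} {l : List α} (h : l ≠ []) : ∃ w : FreeSemigroup α, toL w = l := by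
  obtain ⟨a, l', rfl⟩ := List.exists_cons_of_ne_nil h
  exact ⟨⟨a, l'⟩, rfl⟩

theorem length_toL {α : Type*} (w : FreeSemigroup α) : (toL w).length = w.length := rfl

theorem prod_toL {α : Type*} {Q : Type*} [Semigroup Q] (f : FreeSemigroup α →ₙ* Q)
    (w : FreeSemigroup α) :
    ((toL w).map (fun a => ((f (FreeSemigroup.of a) : Q) : WithOne Q))).prod =
      ((f w : Q) : WithOne Q) := by
  induction w using FreeSemigroup.recOnMul with
  | ih1 a => simp [toL, FreeSemigroup.of]
  | ih2 a w ih1 ih2 =>
    rw [toL_mul, List.map_append, List.prod_append, ih1, ih2, map_mul, WithOne.coe_mul]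

theorem prod_ne_one {α : Type*} {Q : Type*} [Semigroup Q] (f : FreeSemigroup α →ₙ* Q)
    {l : List α} (h : (l.map (fun a => ((f (FreeSemigroup.of a) : Q) : WithOne Q))).prod = 1) :
    l = [] := by
  by_contra hne
  obtain ⟨w, rfl⟩ := exists_toL hne
  rw [prod_toL] at h
  exact WithOne.coe_ne_one h

theorem coe_mul_ne_one {Q : Type*} [Semigroup Q] {x y : WithOne Q} (h : x * y = 1) :
    x = 1 ∧ y = 1 := by
  induction x using WithOne.recOneCoe with
  | one => rw [one_mul] at h; exact ⟨rfl, h⟩
  | coe x =>
    induction y using WithOne.recOneCoe with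
    | one => rw [mul_one] at h; exact ⟨h, rfl⟩
    | coe y =>
      rw [← WithOne.coe_mul] at h
      exact absurd h WithOne.coe_ne_one

theorem finite_words (α : Type*) [Finite α] (n : ℕ) :
    {w : FreeSemigroup α | w.length ≤ n}.Finite := by
  refine Set.Finite.of_finite_image ((List.finite_length_le α n).subset ?_)
    (toL_injective.injOn (s := {w : FreeSemigroup α | w.length ≤ n}))
  rintro _ ⟨w, hw, rfl⟩
  exact hw

/-- **Main theorem.** Let `A`, `B` be finite non-empty alphabets and `f : A⁺ → Q`, `g : B⁺ → Q`
surjective homomorphisms to a semigroup `Q`. If the fiber product of `f` and `g` is finitely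
generated, then it is finitely presented. -/
theorem result {A B : Type} [Finite A] [Finite B] [Nonempty A] [Nonempty B] {Q : Type u}
    [Semigroup Q] (f : FreeSemigroup A →ₙ* Q) (g : FreeSemigroup B →ₙ* Q)
    (hf : Function.Surjective f) (hg : Function.Surjective g)
    (hfg : FinitelyGenerated (fiberProduct f g)) : FinitelyPresented (fiberProduct f g) := by
  classical
  obtain ⟨T, hT, hgen⟩ := hfg
  have hTf := hT.fintype
  let k := Fintype.card T
  let x : Fin k → fiberProduct f g := fun i => ((Fintype.equivFin T).symm i : T)
  have hrange : Set.range x = T := by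
    ext s
    constructor
    · rintro ⟨i, rfl⟩
      exact ((Fintype.equivFin T).symm i).2
    · intro hs
      exact ⟨Fintype.equivFin T ⟨s, hs⟩, by simp [x]⟩
  let π : FreeSemigroup (Fin k) →ₙ* fiberProduct f g := FreeSemigroup.lift x
  have hπ : ∀ i, π (FreeSemigroup.of i) = x i := fun i => FreeSemigroup.lift_of _ _
  have hπsurj : Function.Surjective π := by
    intro s
    have hs : s ∈ Subsemigroup.closure T := by rw [hgen]; trivial
    induction hs using Subsemigroup.closure_induction with
    | mem s hs =>
      rw [← hrange] at hs
      obtain ⟨i, rfl⟩ := hs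
      exact ⟨FreeSemigroup.of i, hπ i⟩
    | mul s t _ _ ih1 ih2 =>
      obtain ⟨a, rfl⟩ := ih1
      obtain ⟨b, rfl⟩ := ih2
      exact ⟨a * b, map_mul _ _ _⟩
  let xA : Fin k → List A := fun i => toL (x i).1.1
  let xB : Fin k → List B := fun i => toL (x i).1.2
  have hflatA : ∀ w : FreeSemigroup (Fin k), (toL w).flatMap xA = toL (π w).1.1 := by
    intro w
    induction w using FreeSemigroup.recOnMul with
    | ih1 i => rw [hπ]; simp [toL, FreeSemigroup.of, xA]
    | ih2 i w ih1 ih2 =>
      rw [toL_mul, List.flatMap_append, ih1, ih2, map_mul]; rfl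
  have hflatB : ∀ w : FreeSemigroup (Fin k), (toL w).flatMap xB = toL (π w).1.2 := by
    intro w
    induction w using FreeSemigroup.recOnMul with
    | ih1 i => rw [hπ]; simp [toL, FreeSemigroup.of, xB]
    | ih2 i w ih1 ih2 =>
      rw [toL_mul, List.flatMap_append, ih1, ih2, map_mul]; rfl
  -- a bound for the lengths
  obtain ⟨C, hC⟩ : ∃ C : ℕ, ∀ i, (xA i).length ≤ C ∧ (xB i).length ≤ C := by
    refine ⟨∑ i, ((xA i).length + (xB i).length), fun i => ?_⟩
    have := Finset.single_le_sum (f := fun i => (xA i).length + (xB i).length)
      (fun i _ => Nat.zero_le _) (Finset.mem_univ i)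
    omega
  -- the extended homomorphisms on words
  let a : A → WithOne Q := fun c => ((f (FreeSemigroup.of c) : Q) : WithOne Q)
  let b : B → WithOne Q := fun c => ((g (FreeSemigroup.of c) : Q) : WithOne Q)
  have hsurj : ∀ (u : List A) (v : List B), (u.map a).prod = (v.map b).prod →
      ∃ w : List (Fin k), w.flatMap xA = u ∧ w.flatMap xB = v := by
    intro u v huv
    by_cases hu : u = []
    · subst hu
      have hv : v = [] := prod_ne_one g (by simpa using huv.symm)
      subst hv
      exact ⟨[], rfl, rfl⟩
    · have hv : v ≠ [] := by
        rintro rfl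
        exact hu (prod_ne_one f (by simpa using huv))
      obtain ⟨u, rfl⟩ := exists_toL hu
      obtain ⟨v, rfl⟩ := exists_toL hv
      rw [prod_toL, prod_toL, WithOne.coe_inj] at huv
      obtain ⟨w, hw⟩ := hπsurj ⟨(u, v), huv⟩
      exact ⟨toL w, by rw [hflatA, hw], by rw [hflatB, hw]⟩
  have hle : ∀ w : List (Fin k), w.length ≤ (w.flatMap xB).length ∧
      (w.flatMap xA).length ≤ C * w.length := by
    intro w
    induction w with
    | nil => simp
    | cons i w ih =>
      rw [List.flatMap_cons, List.flatMap_cons, List.length_append, List.length_append,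
        List.length_cons]
      have h1 := hC i
      have h2 : 0 < (xB i).length := List.length_pos_iff.2 (toL_ne _)
      constructor
      · omega
      · have := ih.2
        nlinarith
  let D : Q28.Fiber.Data (Fin k) A B (WithOne Q) :=
    { a := a
      b := b
      xA := xA
      xB := xB
      C := C
      β := fun c => toL (Function.surjInv hg (f (FreeSemigroup.of c)))
      neA := fun i => toL_ne _
      neB := fun i => toL_ne _
      leA := fun i => (hC i).1
      leB := fun i => (hC i).2
      gen := fun i => by
        show ((toL (x i).1.1).map a).prod = ((toL (x i).1.2).map b).prod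
        rw [prod_toL, prod_toL]
        exact congrArg _ (x i).2
      surj := hsurj
      nofix := by
        intro q z h
        by_contra hz
        induction z using WithOne.recOneCoe with
        | one => exact hz rfl
        | coe z =>
          induction q using WithOne.recOneCoe with
          | one => rw [one_mul] at h; exact hz h
          | coe q =>
            rw [← WithOne.coe_mul, WithOne.coe_inj] at h
            obtain ⟨u, rfl⟩ := hf q
            obtain ⟨v, hv⟩ := hg (f u)
            obtain ⟨w, rfl⟩ := hf z
            -- `(u w^n, v)` lies in the fiber product for all `n`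
            have hn : ∀ n : ℕ, ∃ l : List A, n ≤ l.length ∧ (l.map a).prod = ((f u : Q) : WithOne Q) := by
              intro n
              induction n with
              | zero => exact ⟨toL u, Nat.zero_le _, prod_toL f u⟩
              | succ n ih =>
                obtain ⟨l, hl, hl'⟩ := ih
                refine ⟨l ++ toL w, ?_, ?_⟩
                · rw [List.length_append]
                  have := List.length_pos_iff.2 (toL_ne w)
                  omega
                · rw [List.map_append, List.prod_append, hl', prod_toL, ← WithOne.coe_mul, h]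
            obtain ⟨l, hl, hl'⟩ := hn (C * (toL v).length + 1)
            obtain ⟨c, hc1, hc2⟩ := hsurj l (toL v) (by rw [hl', prod_toL, hv])
            have h1 := hle c
            rw [hc1, hc2] at h1
            have h2 : C * c.length ≤ C * (toL v).length := Nat.mul_le_mul_left _ h1.1
            omega
      one := by
        intro u v h
        obtain ⟨h1, h2⟩ := coe_mul_ne_one h
        exact ⟨prod_ne_one f h1, prod_ne_one g h2⟩
      one' := by
        intro u v h
        obtain ⟨h1, h2⟩ := coe_mul_ne_one h
        exact ⟨prod_ne_one f h2, prod_ne_one g h1⟩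
      hβ := by
        intro c
        rw [prod_toL, Function.surjInv_eq hg] }
  -- the finite set of relations
  let L := C * (C + 2) + 1
  let Rset : Set (FreeSemigroup (Fin k) × FreeSemigroup (Fin k)) :=
    {p | p.1.length ≤ L ∧ p.2.length ≤ L ∧ π p.1 = π p.2}
  have hRfin : Rset.Finite :=
    ((finite_words (Fin k) L).prod (finite_words (Fin k) L)).subset
      fun p hp => ⟨hp.1, hp.2.1⟩
  let R : Finset (FreeSemigroup (Fin k) × FreeSemigroup (Fin k)) := hRfin.toFinset
  let con := conGen (fun u v => (u, v) ∈ R)
  have hR : ∀ u v : FreeSemigroup (Fin k), (u, v) ∈ R ↔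
      u.length ≤ L ∧ v.length ≤ L ∧ π u = π v := fun u v => by
    rw [Set.Finite.mem_toFinset]; rfl
  have hsound : ∀ u v, con u v → π u = π v := by
    have hle : con ≤ Con.ker π := by
      rw [Con.conGen_le]
      intro u v huv
      exact ((hR u v).1 huv).2.2
    exact fun u v h => hle h
  have hcomplete : ∀ u v, π u = π v → con u v := by
    intro u v huv
    let E : List (Fin k) → List (Fin k) → Prop := fun w w' =>
      ∃ s s', toL s = w ∧ toL s' = w' ∧ con s s'
    have hE := D.connected (fun w w' => w = w' ∨ E w w')
      (by
        rintro w w' (h | ⟨s, s', h1, h2, h3⟩)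
        · exact Or.inl h.symm
        · exact Or.inr ⟨s', s, h2, h1, con.symm h3⟩)
      (by
        rintro w w' w'' (rfl | ⟨s, s', h1, h2, h3⟩) h
        · exact h
        · rcases h with rfl | ⟨t, t', h4, h5, h6⟩
          · exact Or.inr ⟨s, s', h1, h2, h3⟩
          · have : s' = t := toL_injective (h2.trans h4.symm)
            subst this
            exact Or.inr ⟨s, t', h1, h5, con.trans h3 h6⟩)
      (by
        rintro c w w' (rfl | ⟨s, s', h1, h2, h3⟩)
        · exact Or.inl rfl
        · by_cases hc : c = []
          · subst hc; exact Or.inr ⟨s, s', h1, h2, h3⟩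
          · obtain ⟨c', rfl⟩ := exists_toL hc
            exact Or.inr ⟨c' * s, c' * s', by rw [toL_mul, h1], by rw [toL_mul, h2],
              con.mul (con.refl c') h3⟩)
      (by
        rintro c w w' (rfl | ⟨s, s', h1, h2, h3⟩)
        · exact Or.inl rfl
        · by_cases hc : c = []
          · subst hc
            exact Or.inr ⟨s, s', by rw [h1, List.append_nil], by rw [h2, List.append_nil], h3⟩
          · obtain ⟨c', rfl⟩ := exists_toL hc
            exact Or.inr ⟨s * c', s' * c', by rw [toL_mul, h1], by rw [toL_mul, h2],
              con.mul h3 (con.refl c')⟩)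
      (by
        intro w w' hw hw' hl hl' hA hB
        obtain ⟨s, rfl⟩ := exists_toL hw
        obtain ⟨s', rfl⟩ := exists_toL hw'
        refine Or.inr ⟨s, s', rfl, rfl, ConGen.Rel.of _ _ ((hR s s').2 ⟨hl, hl', ?_⟩)⟩
        have hA' : toL (π s).1.1 = toL (π s').1.1 := by rw [← hflatA, ← hflatA]; exact hA
        have hB' : toL (π s).1.2 = toL (π s').1.2 := by rw [← hflatB, ← hflatB]; exact hB
        exact Subtype.ext (Prod.ext (toL_injective hA') (toL_injective hB')))
      (toL u) (toL v) (toL_ne u) (toL_ne v)
      (by show (toL u).flatMap xA = (toL v).flatMap xA; rw [hflatA, hflatA, huv])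
      (by show (toL u).flatMap xB = (toL v).flatMap xB; rw [hflatB, hflatB, huv])
    rcases hE with h | ⟨s, s', h1, h2, h3⟩
    · rw [toL_injective h]; exact con.refl v
    · rw [← toL_injective h1, ← toL_injective h2]; exact h3
  -- the isomorphism
  let F : con.Quotient → fiberProduct f g := Quotient.lift π (fun u v h => hsound u v h)
  have hFmul : ∀ p q, F (p * q) = F p * F q := by
    intro p q
    induction p using Con.induction_on with
    | _ p =>
    induction q using Con.induction_on with
    | _ q => exact map_mul π p q
  have hFbij : Function.Bijective F := by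
    constructor
    · intro p q
      induction p using Con.induction_on with
      | _ p =>
      induction q using Con.induction_on with
      | _ q =>
      intro h
      exact (Con.eq con).2 (hcomplete p q h)
    · intro s
      obtain ⟨w, hw⟩ := hπsurj s
      exact ⟨(w : con.Quotient), hw⟩
  exact ⟨k, R, ⟨(MulEquiv.ofBijective (⟨F, hFmul⟩ : con.Quotient →ₙ* fiberProduct f g) hFbij).symm⟩⟩

end Pool.Agent.Results.MP_c47b4a_al.FinitelyPresentedFiber
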